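import Pool.Agent.LRN.Defs
import Pool.Agent.Helper80_LRG.LowAll
import Pool.Agent.Helper29_LRG.IRE

/-!
# Squad LRN, row LWU: many primitive fields with a full system of short units (helper69)
-/

set_option autoImplicit false

open Polynomial NumberField

namespace Pool.Agent.LRN.H69

open Pool.Agent.LRG Pool.Agent.LRG.E

/-- A matrix row with dominant negative diagonal. -/
theorem dom_aux {r : ℕ} (a : Fin r → ℝ) (c : Fin r → ℝ) (s : ℝ) (i₁ : Fin r) (hs : 0 < s)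
    (hpos : ∀ i, i ≠ i₁ → 0 < a i) (hsum : ∑ i, a i + s = 0) (hmax : ∀ i, |c i| ≤ |c i₁|)
    (h0 : ∑ i, c i * a i = 0) : c i₁ = 0 := by
  classical
  by_contra hc
  have hc0 : 0 < |c i₁| := abs_pos.mpr hc
  rw [← Finset.add_sum_erase _ _ (Finset.mem_univ i₁)] at hsum h0
  have hA : 0 ≤ ∑ i ∈ Finset.univ.erase i₁, a i :=
    Finset.sum_nonneg fun i hi => (hpos i (Finset.ne_of_mem_erase hi)).le
  have h1 : |∑ i ∈ Finset.univ.erase i₁, c i * a i| ≤ |c i₁| * ∑ i ∈ Finset.univ.erase i₁, a i := by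
    rw [Finset.mul_sum]
    refine (Finset.abs_sum_le_sum_abs _ _).trans (Finset.sum_le_sum fun i hi => ?_)
    rw [abs_mul, abs_of_pos (hpos i (Finset.ne_of_mem_erase hi))]
    exact mul_le_mul_of_nonneg_right (hmax i) (hpos i (Finset.ne_of_mem_erase hi)).le
  have h2 : |c i₁ * a i₁| = |c i₁| * (∑ i ∈ Finset.univ.erase i₁, a i + s) := by
    rw [abs_mul]
    have h3 : a i₁ = -(∑ i ∈ Finset.univ.erase i₁, a i + s) := by linarith
    have h3' : |a i₁| = ∑ i ∈ Finset.univ.erase i₁, a i + s := by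
      rw [h3, abs_neg]
      exact abs_of_nonneg (by linarith)
    rw [h3']
  have h4 : |c i₁ * a i₁| ≤ |c i₁| * ∑ i ∈ Finset.univ.erase i₁, a i := by
    have h5 : c i₁ * a i₁ = -∑ i ∈ Finset.univ.erase i₁, c i * a i := by linarith
    rw [h5, abs_neg]
    exact h1
  rw [h2] at h4
  nlinarith

theorem fac_rep {r₁ r₂ : ℕ} (k : Fa r₁ r₂) : fac (rep k) = k := by
  cases k <;> rfl

/-- The product of the distances to all factors. -/
theorem prod_dst {r₁ r₂ t : ℕ} {x : Ro r₁ r₂ → ℂ} (hx : Rts r₁ r₂ t x) (o : Ro r₁ r₂) :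
    ∏ k : Fa r₁ r₂, dst t (x o) k = 1 := by
  classical
  rw [← hx.one o]
  unfold dst
  have h := Finset.prod_fiberwise (Finset.univ : Finset (Ro r₁ r₂)) (fac : Ro r₁ r₂ → Fa r₁ r₂)
    (fun o' => ‖x o - t * om o'‖)
  rw [← h]

/-- The units are independent. -/
theorem indep_units {r₁ r₂ t : ℕ} {x : Ro r₁ r₂ → ℂ} {K : Type} [Field K] [NumberField K] {θ : K}
    {e : Ro r₁ r₂ ≃ (K →+* ℂ)} (hF : Fld r₁ r₂ t x K θ e) (ht : 4 ≤ t) (h2 : 2 ≤ r₁ + r₂)
    (u : Fa r₁ r₂ → (𝓞 K)ˣ)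
    (hu : ∀ (o : Ro r₁ r₂) (k : Fa r₁ r₂), ‖e o ((u k : 𝓞 K) : K)‖ = dst t (x o) k) {r : ℕ}
    (g : Fin (r + 1) ≃ Fa r₁ r₂) : Indep (fun i : Fin r => u (g i.castSucc)) := by
  classical
  intro c hc
  obtain ⟨hd0, hd1, hd2⟩ := H43.lgb r₁ r₂ t x hF.rts ht h2
  by_contra hne
  obtain ⟨i₀, hi₀⟩ : ∃ i, c i ≠ 0 := by
    by_contra hcon
    push Not at hcon
    exact hne (funext hcon)
  obtain ⟨i₁, -, hi₁⟩ := Finset.exists_max_image (Finset.univ : Finset (Fin r))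
    (fun i => |(c i : ℝ)|) ⟨i₀, Finset.mem_univ _⟩
  have hk₁ : ∀ i, |(c i : ℝ)| ≤ |(c i₁ : ℝ)| := fun i => hi₁ i (Finset.mem_univ i)
  obtain ⟨o, ho⟩ : ∃ o : Ro r₁ r₂, o = rep (g i₁.castSucc) := ⟨_, rfl⟩
  have hfo : fac o = g i₁.castSucc := by rw [ho, fac_rep]
  have hz : (c i₁ : ℝ) = 0 := by
    refine dom_aux (fun i => Real.log (dst t (x o) (g i.castSucc))) (fun i => (c i : ℝ))
      (Real.log (dst t (x o) (g (Fin.last r)))) i₁ ?_ ?_ ?_ hk₁ ?_
    · refine hd1 o _ ?_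
      rw [hfo]
      intro hcon
      exact (Fin.castSucc_lt_last i₁).ne (g.injective hcon)
    · intro i hi
      refine hd1 o _ ?_
      rw [hfo]
      intro hcon
      exact hi (Fin.castSucc_injective r (g.injective hcon)).symm
    · have h3 := prod_dst hF.rts o
      rw [← g.prod_comp, Fin.prod_univ_castSucc] at h3
      have h4 := congrArg Real.log h3
      rw [Real.log_mul (Finset.prod_ne_zero_iff.mpr fun i _ => (hd0 o _).ne') (hd0 o _).ne',
        Real.log_prod fun i _ => (hd0 o _).ne', Real.log_one] at h4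
      exact h4
    · have h3 := congrArg (fun v : (𝓞 K)ˣ => Real.log ‖e o ((v : 𝓞 K) : K)‖) hc
      have h4 : Real.log ‖e o (((1 : (𝓞 K)ˣ) : 𝓞 K) : K)‖ = 0 := by simp
      have h5 : ∀ s : Finset (Fin r), Real.log ‖e o (((∏ i ∈ s, u (g i.castSucc) ^ c i :
          (𝓞 K)ˣ) : 𝓞 K) : K)‖ = ∑ i ∈ s, (c i : ℝ) * Real.log (dst t (x o) (g i.castSucc)) := by
        intro s
        induction s using Finset.induction_on with
        | empty => simp
        | insert i s hi ih =>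
          rw [Finset.prod_insert hi, Finset.sum_insert hi, ← ih, ← hu]
          have h6 : ((((u (g i.castSucc) ^ c i) * ∏ j ∈ s, u (g j.castSucc) ^ c j : (𝓞 K)ˣ) :
              𝓞 K) : K) = (((u (g i.castSucc) : (𝓞 K)ˣ) : 𝓞 K) : K) ^ c i *
                (((∏ j ∈ s, u (g j.castSucc) ^ c j : (𝓞 K)ˣ) : 𝓞 K) : K) := by
            rw [← NumberField.Units.coe_zpow]
            exact map_mul (algebraMap (𝓞 K) K) _ _
          rw [h6, map_mul, norm_mul, map_zpow₀, norm_zpow, Real.log_mul, Real.log_zpow]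
          · exact zpow_ne_zero _ (by rw [hu]; exact (hd0 o _).ne')
          · rw [norm_ne_zero_iff, _root_.map_ne_zero]
            exact NumberField.Units.coe_ne_zero _
      have h7 := h5 Finset.univ
      rw [← h7]
      exact h3.trans h4
  have h8 := hk₁ i₀
  rw [hz, abs_zero] at h8
  have h9 : (c i₀ : ℝ) = 0 := abs_nonpos_iff.mp h8
  exact hi₀ (by exact_mod_cast h9)

/-- **LWU**, from the irreducibility row. -/
theorem lwu : LwuStmt := by
  have ire := H29.ire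
  have ffe : FfeConcl := H40.ffe H67.fct H21.spc ire H62.roo H21.emb
  have dsj : DsjConcl := H76.dsj H67.fct H21.spc H10.unt H47.kro H40.dsr H43.lgb
  have cou : CouConcl := H95.cou ffe dsj
  have two : TwoConcl := H49.two H38.blr H49.bli H41.tra H47.blc H42.tre H21.spc H41.niz
    H64.sub H99.fiv
  have noi : NoiConcl := H40.noi H21.spc H41.niz
  intro r₁ r₂ h3
  obtain ⟨c₁, N₀, hc₁, hN₀⟩ := cou r₁ r₂ (by omega)
  obtain ⟨t₀, ht₀⟩ := H44.bgt r₁ r₂ (by omega)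
  obtain ⟨n, hn⟩ : ∃ n : ℕ, n = r₁ + 2 * r₂ := ⟨_, rfl⟩
  have hn3 : 3 ≤ n := by omega
  have hn0 : (0 : ℝ) < n := by
    have : 0 < n := by omega
    exact_mod_cast this
  have hb2 : 2 ≤ bd r₁ r₂ := by
    unfold bd
    have : (1 : ℝ) ≤ 5 ^ (r₁ + r₂) := one_le_pow₀ (by norm_num)
    linarith
  obtain ⟨Y₀, hY₀⟩ : ∃ Y₀ : ℝ, Y₀ = 6 * bd r₁ r₂ * ((N₀ + t₀ + 5 : ℕ) : ℝ) +
      (12 * bd r₁ r₂ / c₁ + 1) ^ 2 := ⟨_, rfl⟩
  have hY₀0 : 1 ≤ Y₀ := by
    have h1 : 0 ≤ (12 * bd r₁ r₂ / c₁ + 1) ^ 2 := sq_nonneg _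
    have h2 : (1 : ℝ) ≤ ((N₀ + t₀ + 5 : ℕ) : ℝ) := by
      push_cast
      have : (0 : ℝ) ≤ N₀ := Nat.cast_nonneg _
      have : (0 : ℝ) ≤ t₀ := Nat.cast_nonneg _
      linarith
    rw [hY₀]
    nlinarith
  refine ⟨1 / (2 * n), Y₀ ^ n, by positivity, ?_⟩
  intro X hX
  have hX1 : 1 ≤ X := le_trans (one_le_pow₀ hY₀0) hX
  obtain ⟨y, hy⟩ : ∃ y : ℝ, y = X ^ (1 / (n : ℝ)) := ⟨_, rfl⟩
  have hyn : y ^ n = X := by
    rw [hy, ← Real.rpow_natCast, ← Real.rpow_mul (by linarith), one_div,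
      inv_mul_cancel₀ hn0.ne', Real.rpow_one]
  have hy0 : 0 ≤ y := by
    rw [hy]
    exact Real.rpow_nonneg (by linarith) _
  have hyY : Y₀ ≤ y := by
    refine (pow_le_pow_iff_left₀ (by linarith) hy0 (by omega : n ≠ 0)).mp ?_
    rw [hyn]
    exact hX
  have hXc : X ^ (1 / (2 * (n : ℝ))) = Real.sqrt y := by
    rw [Real.sqrt_eq_rpow, hy, ← Real.rpow_mul (by linarith)]
    congr 1
    field_simp
  rw [hXc]
  obtain ⟨N, hN⟩ : ∃ N : ℕ, N = ⌊y / (6 * bd r₁ r₂)⌋₊ := ⟨_, rfl⟩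
  have hb6 : 0 < 6 * bd r₁ r₂ := by linarith
  have hNle : (N : ℝ) ≤ y / (6 * bd r₁ r₂) := by
    rw [hN]
    exact Nat.floor_le (by positivity)
  have hNlt : y / (6 * bd r₁ r₂) < N + 1 := by
    rw [hN]
    exact Nat.lt_floor_add_one _
  have hNbig : N₀ + t₀ + 5 ≤ N := by
    rw [hN]
    refine Nat.le_floor ?_
    rw [le_div_iff₀ hb6]
    have h1 : 0 ≤ (12 * bd r₁ r₂ / c₁ + 1) ^ 2 := sq_nonneg _
    rw [hY₀] at hyY
    linarith
  obtain ⟨S, hScard, hS⟩ := hN₀ N (by omega)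
  refine ⟨S, ?_, ?_⟩
  · refine le_trans ?_ hScard
    obtain ⟨s, hs⟩ : ∃ s : ℝ, s = Real.sqrt y := ⟨_, rfl⟩
    have hss : s * s = y := by
      rw [hs]
      exact Real.mul_self_sqrt hy0
    have hs0 : 0 ≤ s := by
      rw [hs]
      exact Real.sqrt_nonneg _
    have hsb : 12 * bd r₁ r₂ / c₁ + 1 ≤ s := by
      rw [hs]
      refine Real.le_sqrt_of_sq_le ?_
      have h1 : (0 : ℝ) ≤ 6 * bd r₁ r₂ * ((N₀ + t₀ + 5 : ℕ) : ℝ) := by positivity
      rw [hY₀] at hyY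
      linarith
    rw [← hs]
    have h1 : y ≤ 12 * bd r₁ r₂ * N := by
      rw [div_lt_iff₀ hb6] at hNlt
      have h2 : (1 : ℝ) ≤ N := by
        have : 1 ≤ N := by omega
        exact_mod_cast this
      nlinarith
    have h2 : 12 * bd r₁ r₂ ≤ c₁ * s := by
      have h3 : 12 * bd r₁ r₂ / c₁ ≤ s := by linarith
      rw [div_le_iff₀ hc₁] at h3
      linarith
    have h4 : 12 * bd r₁ r₂ * s ≤ c₁ * y := by
      rw [← hss]
      nlinarith
    have h5 : c₁ * y ≤ c₁ * (12 * bd r₁ r₂ * N) := mul_le_mul_of_nonneg_left h1 hc₁.le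
    have h6 : 12 * bd r₁ r₂ * s ≤ 12 * bd r₁ r₂ * (c₁ * N) := by linarith
    exact le_of_mul_le_mul_left h6 (by linarith)
  · intro K hK
    obtain ⟨hNF, t, x, θ, e, hNt, ht2, hF⟩ := hS K hK
    have hBig : Big r₁ r₂ t := ht₀ t (by omega)
    obtain ⟨-, hre, hco⟩ := H25.pla r₁ r₂ t x K θ e hF
    refine ⟨hNF, hre, hco, ?_, ?_⟩
    · intro E
      by_contra hcon
      rw [not_or] at hcon
      obtain ⟨ι, hι⟩ := two r₁ r₂ t x K θ e hF hBig h3 E hcon.2 hcon.1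
      exact noi r₁ r₂ t x K θ e hF hBig h3 ι hι
    · obtain ⟨u, hu⟩ := H10.unt H67.fct r₁ r₂ t x K θ e hF
      have hcard : Fintype.card (Fa r₁ r₂) = (r₁ + r₂ - 1) + 1 := by
        rw [Fintype.card_sum, Fintype.card_fin, Fintype.card_fin]
        omega
      obtain ⟨g⟩ : Nonempty (Fin ((r₁ + r₂ - 1) + 1) ≃ Fa r₁ r₂) :=
        ⟨(Fintype.equivFinOfCardEq hcard).symm⟩
      refine ⟨fun i => u (g i.castSucc), indep_units hF (by omega) (by omega) u hu g, ?_⟩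
      intro i σ
      obtain ⟨o, rfl⟩ := e.surjective σ
      obtain ⟨hd0, hd1, hd2⟩ := H43.lgb r₁ r₂ t x hF.rts (by omega) (by omega)
      show ‖e o ((u (g i.castSucc) : 𝓞 K) : K)‖ ≤ X
      rw [hu]
      have h1 := hd2 o (g i.castSucc)
      rw [← hn] at h1
      have ht1 : (1 : ℝ) ≤ t := by
        have : 1 ≤ t := by omega
        exact_mod_cast this
      have h3bt : 0 < 3 * bd r₁ r₂ * t := by nlinarith
      have h4 : Real.log (dst t (x o) (g i.castSucc)) ≤ Real.log ((3 * bd r₁ r₂ * t) ^ n) := by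
        rw [Real.log_pow]
        exact le_trans (le_abs_self _) h1
      have h5 : dst t (x o) (g i.castSucc) ≤ (3 * bd r₁ r₂ * t) ^ n :=
        (Real.log_le_log_iff (hd0 o _) (by positivity)).mp h4
      refine h5.trans ?_
      rw [← hyn]
      refine pow_le_pow_left₀ h3bt.le ?_ n
      have h6 : (t : ℝ) ≤ 2 * N := by exact_mod_cast ht2
      have h7 : 6 * bd r₁ r₂ * N ≤ y := by
        rw [le_div_iff₀ hb6] at hNle
        linarith
      nlinarith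

end Pool.Agent.LRN.H69
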