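import Pool.Agent.LRN.StmtsB

/-!
# Squad LRN, row SRC: the sources of all counterexamples (helper69)
-/

set_option autoImplicit false

open Polynomial NumberField
open Pool.Agent.Helper85_Leo (LeopoldtAt)
open Pool.Agent.LRG

namespace Pool.Agent.LRN.H69

theorem rank_lt (K : Type) [Field K] [NumberField K] :
    Units.rank K + 1 ≤ Module.finrank ℚ K := by
  have h1 := InfinitePlace.card_add_two_mul_card_eq_rank K
  have h2 := InfinitePlace.card_eq_nrRealPlaces_add_nrComplexPlaces (K := K)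
  have h3 : 0 < Fintype.card (InfinitePlace K) := Fintype.card_pos
  unfold Units.rank
  omega

theorem bdd_mono {K : Type} [Field K] [NumberField K] {r : ℕ} {u : Fin r → (𝓞 K)ˣ} {X Y : ℝ}
    (h : Bdd u X) (hXY : X ≤ Y) : Bdd u Y := fun i σ => (h i σ).trans hXY

/-- **SRC** -/
theorem src : SrcStmt := by
  intro hKer hRk hSnu hMcx hUnr n
  choose A hA using hSnu
  obtain ⟨Am, hAm⟩ : ∃ Am : ℕ, ∀ d ≤ n, ∀ r ≤ n, A d r ≤ Am := by
    refine ⟨∑ d ∈ Finset.range (n + 1), ∑ r ∈ Finset.range (n + 1), A d r, ?_⟩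
    intro d hd r hr
    have h1 : A d r ≤ ∑ r ∈ Finset.range (n + 1), A d r :=
      Finset.single_le_sum (f := fun r => A d r) (fun _ _ => Nat.zero_le _)
        (Finset.mem_range.mpr (by omega))
    exact h1.trans (Finset.single_le_sum (f := fun d => ∑ r ∈ Finset.range (n + 1), A d r)
      (fun _ _ => Nat.zero_le _) (Finset.mem_range.mpr (by omega)))
  refine ⟨n * Am, ?_⟩
  rintro p hp X K ⟨hNF, hdeg, u, hu, hub⟩ ⟨hNF', hBad⟩
  obtain ⟨E, hE, hEK, hMin⟩ := hMcx p K hBad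
  obtain ⟨Y, hY⟩ : ∃ Y : ℝ, Y = max X 1 := ⟨_, rfl⟩
  have hY1 : 1 ≤ Y := by
    rw [hY]
    exact le_max_right _ _
  have hXY : X ≤ Y := by
    rw [hY]
    exact le_max_left _ _
  letI alg : Algebra E K := (IntermediateField.inclusion hEK).toRingHom.toAlgebra
  obtain ⟨v, hv, hvb⟩ := hUnr E K Y u hY1 hu (bdd_mono hub hXY)
  rw [hdeg] at hvb
  have hEn : Module.finrank ℚ E ≤ n := by
    rw [← hdeg]
    exact LinearMap.finrank_le_finrank_of_injective
      (f := (IntermediateField.inclusion hEK).toLinearMap)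
      (IntermediateField.inclusion hEK).toRingHom.injective
  have hrE := rank_lt E
  have hr2 : 2 ≤ Units.rank E := by
    by_contra hcon
    exact hMin.1 (hRk p E (by omega))
  have hYn : 1 ≤ Y ^ n := one_le_pow₀ hY1
  obtain ⟨s, w, hsr, hw, hwb⟩ := hA (Module.finrank ℚ E) (Units.rank E) E v (Y ^ n) rfl rfl hYn
    hv hvb
  have hs : 0 < s := by
    by_contra hcon
    have hs0 : s = 0 := by omega
    subst hs0
    obtain ⟨c, hc, -⟩ := hKer p E 0 1 w (fun _ _ => 0) hMin hw (fun σ i => i.elim0)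
    exact hc (funext fun i => i.elim0)
  refine ⟨E, ⟨Module.finrank ℚ E, s, by omega, hEn, hs, by omega, ⟨hE, rfl, w, hw, ?_⟩⟩, hEK,
    ⟨hE, hMin⟩⟩
  refine bdd_mono hwb ?_
  rw [← hY, ← pow_mul]
  exact pow_le_pow_right₀ hY1 (Nat.mul_le_mul_left n (hAm _ hEn _ (by omega)))

end Pool.Agent.LRN.H69
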