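import Pool.Agent.LRN.Stmts
import Pool.Agent.Helper38_LRG.UPR

/-!
# Squad LRN, row SZC: the order by the size of the units, the upper bound (helper69)
-/

set_option autoImplicit false

open Polynomial NumberField
open Pool.Agent.Helper85_Leo (LeopoldtAt)
open Pool.Agent.LRG

namespace Pool.Agent.LRN.H69

theorem min_of_badX (hRK : Rk1Stmt) (p : ℕ) [Fact p.Prime] (K : Type) [Field K] [NumberField K]
    (h1 : ¬ LeopoldtAt K p)
    (h2 : ∀ E : IntermediateField ℚ K, E ≠ ⊤ → 2 ≤ Units.rank E → LeopoldtAt E p) :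
    MinCex K p := by
  refine ⟨h1, fun E hE => ?_⟩
  by_cases h : 2 ≤ Units.rank E
  · exact h2 E hE h
  · exact hRK p E (by omega)

/-- **SZC** -/
theorem szc : SzcStmt := by
  classical
  intro hKer hRk hSnu hCnt p _ r₁ r₂ ε h3 hε
  obtain ⟨n, hn⟩ : ∃ n, n = r₁ + 2 * r₂ := ⟨_, rfl⟩
  obtain ⟨r, hr⟩ : ∃ r, r = r₁ + r₂ - 1 := ⟨_, rfl⟩
  obtain ⟨A, hA⟩ := hSnu n r
  have hA1 : (0 : ℝ) < (A : ℝ) + 1 := by positivity
  have hε' : 0 < ε / ((A : ℝ) + 1) := by positivity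
  have hC : ∀ s : ℕ, ∃ C : ℝ, 0 < s → ∀ X : ℝ, 1 ≤ X → (NewFlds n s X ∩ MinBad p).Finite ∧
      ((NewFlds n s X ∩ MinBad p).ncard : ℝ) ≤ C * X ^ (ε / ((A : ℝ) + 1)) := by
    intro s
    by_cases hs : 0 < s
    · obtain ⟨C, hC⟩ := hCnt p n s _ hε' hs (by omega)
      exact ⟨C, fun _ => hC⟩
    · exact ⟨0, fun h => absurd h hs⟩
  choose C hC using hC
  refine ⟨∑ s ∈ Finset.Icc 1 r, |C s|, ?_⟩
  intro X hX
  have hXA : 1 ≤ X ^ A := one_le_pow₀ hX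
  have hX0 : 0 ≤ X := by linarith
  have hsub : SizeFlds r₁ r₂ X ∩ BadX p ⊆
      ⋃ s ∈ Finset.Icc 1 r, (NewFlds n s (X ^ A) ∩ MinBad p) := by
    rintro K ⟨⟨hNF, hre, hco, -, u, hu, hub⟩, hNF', hL, hE⟩
    obtain ⟨hdeg, hrank⟩ := H38.sig K hre hco
    have hMin : MinCex K p := min_of_badX hRk p K hL hE
    have hur : ∀ r' : ℕ, Units.rank K = r' → ∃ u : Fin r' → (𝓞 K)ˣ, Indep u ∧ Bdd u X := by
      rintro r' rfl
      exact ⟨u, hu, hub⟩
    obtain ⟨u', hu', hub'⟩ := hur r (by rw [hrank, hr])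
    obtain ⟨s, v, hsr, hv, hvb⟩ := hA K u' X (by rw [hdeg, hn]) (by rw [hrank, hr]) hX hu' hub'
    have hs : 1 ≤ s := by
      by_contra hcon
      have hs0 : s = 0 := by omega
      subst hs0
      obtain ⟨c, hc, -⟩ := hKer p K 0 1 v (fun _ _ => 0) hMin hv (fun σ i => i.elim0)
      exact hc (funext fun i => i.elim0)
    refine Set.mem_biUnion (x := s) (by
      rw [Finset.mem_coe, Finset.mem_Icc]
      exact ⟨hs, hsr⟩) ⟨⟨hNF, ?_, v, hv, hvb⟩, hNF, hMin⟩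
    rw [hdeg, hn]
  have hfin : ∀ s ∈ Finset.Icc 1 r, (NewFlds n s (X ^ A) ∩ MinBad p).Finite := fun s hs =>
    (hC s (by have := (Finset.mem_Icc.mp hs).1; omega) (X ^ A) hXA).1
  obtain ⟨T, hT⟩ : ∃ T : ℕ → Finset (IntermediateField ℚ ℂ), ∀ s ∈ Finset.Icc 1 r,
      (T s : Set (IntermediateField ℚ ℂ)) = NewFlds n s (X ^ A) ∩ MinBad p := by
    refine ⟨fun s => if hs : s ∈ Finset.Icc 1 r then (hfin s hs).toFinset else ∅, ?_⟩
    intro s hs
    simp only [dif_pos hs, Set.Finite.coe_toFinset]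
  have hsub2 : SizeFlds r₁ r₂ X ∩ BadX p ⊆
      (((Finset.Icc 1 r).biUnion T : Finset (IntermediateField ℚ ℂ)) :
        Set (IntermediateField ℚ ℂ)) := by
    intro K hK
    obtain ⟨s, hs, hKs⟩ := Set.mem_iUnion₂.mp (hsub hK)
    rw [Finset.mem_coe, Finset.mem_biUnion]
    refine ⟨s, hs, ?_⟩
    rw [← Finset.mem_coe, hT s hs]
    exact hKs
  have hcard : (SizeFlds r₁ r₂ X ∩ BadX p).ncard ≤ ∑ s ∈ Finset.Icc 1 r, (T s).card := by
    refine (Set.ncard_le_ncard hsub2 (Finset.finite_toSet _)).trans ?_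
    rw [Set.ncard_coe_finset]
    exact Finset.card_biUnion_le
  have hpow : (X ^ A) ^ (ε / ((A : ℝ) + 1)) ≤ X ^ ε := by
    rw [← Real.rpow_natCast, ← Real.rpow_mul hX0]
    refine Real.rpow_le_rpow_of_exponent_le hX ?_
    have h1 : (A : ℝ) * (ε / ((A : ℝ) + 1)) = ε * (A / ((A : ℝ) + 1)) := by ring
    rw [h1]
    have h2 : (A : ℝ) / ((A : ℝ) + 1) ≤ 1 := by
      rw [div_le_one hA1]
      linarith
    nlinarith
  calc ((SizeFlds r₁ r₂ X ∩ BadX p).ncard : ℝ)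
      ≤ ((∑ s ∈ Finset.Icc 1 r, (T s).card : ℕ) : ℝ) := by exact_mod_cast hcard
    _ = ∑ s ∈ Finset.Icc 1 r, ((T s).card : ℝ) := by push_cast; rfl
    _ ≤ ∑ s ∈ Finset.Icc 1 r, |C s| * X ^ ε := by
        refine Finset.sum_le_sum fun s hs => ?_
        have h1 := (hC s (by have := (Finset.mem_Icc.mp hs).1; omega) (X ^ A) hXA).2
        rw [← hT s hs, Set.ncard_coe_finset] at h1
        refine h1.trans ?_
        have h2 : C s * (X ^ A) ^ (ε / ((A : ℝ) + 1)) ≤ |C s| * (X ^ A) ^ (ε / ((A : ℝ) + 1)) :=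
          mul_le_mul_of_nonneg_right (le_abs_self _) (Real.rpow_nonneg (by positivity) _)
        exact h2.trans (mul_le_mul_of_nonneg_left hpow (abs_nonneg _))
    _ = (∑ s ∈ Finset.Icc 1 r, |C s|) * X ^ ε := by rw [Finset.sum_mul]

end Pool.Agent.LRN.H69
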